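import Mathlib

/-!
A space that is almost Scheepers and weakly Scheepers but not weakly Scheepers in the sense of
Kocinac.

The points are the pairs (n, r) of a natural number and a real number.  The proper closed sets
are the sets that are countable outside finitely many columns.  Any two nonempty open sets meet,
which gives the first two properties; the third fails because countable sets are not dense.
-/

namespace Pool.Agent.Results.MP_23a291_gt.AlmostWeakNotKocinac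

open Set

variable {X : Type}

/-- A sequence of open covers. -/
def IsCoverSeq [TopologicalSpace X] (𝒰 : ℕ → Set (Set X)) : Prop :=
  ∀ n, (∀ U ∈ 𝒰 n, IsOpen U) ∧ ⋃₀ (𝒰 n) = univ

/-- A selection of finite subfamilies. -/
def IsSelection (𝒰 𝒱 : ℕ → Set (Set X)) : Prop :=
  ∀ n, 𝒱 n ⊆ 𝒰 n ∧ (𝒱 n).Finite

/-- Almost Scheepers spaces. -/
def AlmostScheepers (X : Type) [TopologicalSpace X] : Prop :=
  ∀ 𝒰 : ℕ → Set (Set X), IsCoverSeq 𝒰 → ∃ 𝒱, IsSelection 𝒰 𝒱 ∧
    ∀ F : Set X, F.Finite → {n | F ⊆ closure (⋃₀ (𝒱 n))}.Infinite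

/-- Weakly Scheepers spaces. -/
def WeaklyScheepers (X : Type) [TopologicalSpace X] : Prop :=
  ∀ 𝒰 : ℕ → Set (Set X), IsCoverSeq 𝒰 → ∃ 𝒱, IsSelection 𝒰 𝒱 ∧
    ∀ ℱ : Set (Set X), ℱ.Finite → (∀ U ∈ ℱ, IsOpen U ∧ U.Nonempty) →
      {n | ∀ U ∈ ℱ, (U ∩ ⋃₀ (𝒱 n)).Nonempty}.Infinite

/-- Weakly Scheepers spaces in the sense of Kocinac. -/
def WeaklyScheepersKocinac (X : Type) [TopologicalSpace X] : Prop :=
  ∀ 𝒰 : ℕ → Set (Set X), IsCoverSeq 𝒰 → ∃ Y : Set X, Dense Y ∧ ∃ 𝒱, IsSelection 𝒰 𝒱 ∧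
    ∀ F : Set X, F.Finite → F ⊆ Y → {n | F ⊆ ⋃₀ (𝒱 n)}.Infinite

/-- The underlying set of the example. -/
def Ex : Type := ℕ × ℝ

/-- The sets that are countable outside finitely many columns. -/
def Small (N : Set Ex) : Prop := ∃ n : ℕ, {x ∈ N | n ≤ x.1}.Countable

lemma Small.mono {M N : Set Ex} (h : Small N) (hMN : M ⊆ N) : Small M := by
  obtain ⟨n, hn⟩ := h
  refine ⟨n, hn.mono ?_⟩
  rintro x ⟨hx, hx2⟩
  exact ⟨hMN hx, hx2⟩

lemma Small.union {M N : Set Ex} (hM : Small M) (hN : Small N) : Small (M ∪ N) := by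
  obtain ⟨m, hm⟩ := hM
  obtain ⟨n, hn⟩ := hN
  refine ⟨max m n, (hm.union hn).mono ?_⟩
  rintro x ⟨hx | hx, hx2⟩
  · exact Or.inl ⟨hx, le_trans (le_max_left _ _) hx2⟩
  · exact Or.inr ⟨hx, le_trans (le_max_right _ _) hx2⟩

lemma not_small_univ : ¬ Small univ := by
  rintro ⟨n, hn⟩
  have h1 : ((fun r : ℝ => ((n, r) : Ex)) ⁻¹' {x ∈ univ | n ≤ x.1}).Countable := by
    refine hn.preimage_of_injOn ?_
    intro r _ s _ h
    exact (Prod.mk.injEq _ _ _ _ ▸ h : n = n ∧ r = s).2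
  have h2 : ((fun r : ℝ => ((n, r) : Ex)) ⁻¹' {x ∈ univ | n ≤ x.1}) = univ := by
    ext r
    simp
  rw [h2] at h1
  exact Cardinal.not_countable_real h1

instance : TopologicalSpace Ex where
  IsOpen U := U.Nonempty → Small Uᶜ
  isOpen_univ := by
    intro _
    exact ⟨0, by simp⟩
  isOpen_inter U V hU hV := by
    rintro ⟨x, hxU, hxV⟩
    rw [compl_inter]
    exact (hU ⟨x, hxU⟩).union (hV ⟨x, hxV⟩)
  isOpen_sUnion S hS := by
    rintro ⟨x, U, hU, hxU⟩
    exact (hS U hU ⟨x, hxU⟩).mono (compl_subset_compl.2 (subset_sUnion_of_mem hU))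

lemma isOpen_iff (U : Set Ex) : IsOpen U ↔ (U.Nonempty → Small Uᶜ) := Iff.rfl

lemma small_singleton (x : Ex) : Small {x} :=
  ⟨0, (countable_singleton x).mono (fun _ hy => hy.1)⟩

instance : T1Space Ex where
  t1 x := by
    rw [← isOpen_compl_iff, isOpen_iff, compl_compl]
    intro _
    exact small_singleton x

lemma inter_nonempty {U V : Set Ex} (hU : IsOpen U) (hV : IsOpen V) (hU' : U.Nonempty)
    (hV' : V.Nonempty) : (U ∩ V).Nonempty := by
  by_contra h
  rw [not_nonempty_iff_eq_empty] at h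
  apply not_small_univ
  have := (hU hU').union (hV hV')
  rwa [← compl_inter, h, compl_empty] at this

lemma dense_of_open {U : Set Ex} (hU : IsOpen U) (hU' : U.Nonempty) : closure U = univ := by
  rw [← dense_iff_closure_eq, dense_iff_inter_open]
  intro V hV hV'
  exact inter_nonempty hV hU hV' hU'

lemma choose_one {𝒰 : ℕ → Set (Set Ex)} (h : IsCoverSeq 𝒰) :
    ∃ 𝒱, IsSelection 𝒰 𝒱 ∧ ∀ n, IsOpen (⋃₀ (𝒱 n)) ∧ (⋃₀ (𝒱 n)).Nonempty := by
  have hch : ∀ n, ∃ U ∈ 𝒰 n, U.Nonempty := by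
    intro n
    have : ((0, 0) : Ex) ∈ ⋃₀ (𝒰 n) := by
      rw [(h n).2]
      exact mem_univ _
    obtain ⟨U, hU, hx⟩ := this
    exact ⟨U, hU, ⟨_, hx⟩⟩
  choose U hU hne using hch
  refine ⟨fun n => {U n}, fun n => ⟨singleton_subset_iff.2 (hU n), finite_singleton _⟩, ?_⟩
  intro n
  rw [sUnion_singleton]
  exact ⟨(h n).1 _ (hU n), hne n⟩

theorem result : ∃ (X : Type) (_ : TopologicalSpace X), T1Space X ∧
    AlmostScheepers X ∧ WeaklyScheepers X ∧ ¬ WeaklyScheepersKocinac X := by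
  refine ⟨Ex, inferInstance, inferInstance, ?_, ?_, ?_⟩
  · intro 𝒰 h𝒰
    obtain ⟨𝒱, h𝒱, h𝒱2⟩ := choose_one h𝒰
    refine ⟨𝒱, h𝒱, ?_⟩
    intro F _
    have : {n | F ⊆ closure (⋃₀ (𝒱 n))} = univ := by
      ext n
      simp only [mem_ofPred_eq, mem_univ, iff_true]
      rw [dense_of_open (h𝒱2 n).1 (h𝒱2 n).2]
      exact subset_univ _
    rw [this]
    exact infinite_univ
  · intro 𝒰 h𝒰
    obtain ⟨𝒱, h𝒱, h𝒱2⟩ := choose_one h𝒰
    refine ⟨𝒱, h𝒱, ?_⟩
    intro ℱ _ hℱ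
    have : {n | ∀ U ∈ ℱ, (U ∩ ⋃₀ (𝒱 n)).Nonempty} = univ := by
      ext n
      simp only [mem_ofPred_eq, mem_univ, iff_true]
      intro U hU
      exact inter_nonempty (hℱ U hU).1 (h𝒱2 n).1 (hℱ U hU).2 (h𝒱2 n).2
    rw [this]
    exact infinite_univ
  · intro hK
    -- the members of the n-th cover
    set M : ℕ → Ex → Set Ex := fun n x => {y | y.1 ≤ n → y = x} with hM
    obtain ⟨Y, hY, 𝒱, h𝒱, hY2⟩ := hK (fun n => {U | ∃ x : Ex, x.1 ≤ n ∧ U = M n x}) (by
      intro n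
      constructor
      · rintro U ⟨x, hx, rfl⟩
        rw [isOpen_iff]
        intro _
        refine ⟨n + 1, countable_empty.mono ?_⟩
        rintro y ⟨hy, hy2⟩
        apply hy
        intro hy3
        omega
      · rw [sUnion_eq_univ_iff]
        intro y
        by_cases hy : y.1 ≤ n
        · exact ⟨M n y, ⟨y, hy, rfl⟩, fun _ => rfl⟩
        · exact ⟨M n ((0, 0) : Ex), ⟨_, Nat.zero_le n, rfl⟩, fun h => absurd h hy⟩)
    have hcount : Y.Countable := by
      -- points selected at some stage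
      have hG : ∀ n, {x : Ex | x.1 ≤ n ∧ x ∈ ⋃₀ (𝒱 n)}.Finite := by
        intro n
        refine ((h𝒱 n).2.biUnion (t := fun U => {x : Ex | x.1 ≤ n ∧ x ∈ U}) ?_).subset ?_
        · intro U hU
          obtain ⟨z, hz, rfl⟩ := (h𝒱 n).1 hU
          refine (finite_singleton z).subset ?_
          rintro x ⟨hx, hx2⟩
          exact hx2 hx
        · rintro x ⟨hx, U, hU, hxU⟩
          exact mem_biUnion hU ⟨hx, hxU⟩
      refine (countable_iUnion (fun n => (hG n).countable)).mono ?_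
      intro y hy
      have h1 := hY2 {y} (finite_singleton y) (singleton_subset_iff.2 hy)
      obtain ⟨n, hn, hn2⟩ := h1.exists_gt y.1
      exact mem_iUnion.2 ⟨n, hn2.le, hn rfl⟩
    have hclosed : IsClosed Y := by
      rw [← isOpen_compl_iff, isOpen_iff, compl_compl]
      intro _
      exact ⟨0, hcount.mono (fun x hx => hx.1)⟩
    have h1 : Y = univ := by
      rw [← hclosed.closure_eq]
      exact hY.closure_eq
    apply not_small_univ
    rw [← h1]
    exact ⟨0, hcount.mono (fun x hx => hx.1)⟩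

end Pool.Agent.Results.MP_23a291_gt.AlmostWeakNotKocinac
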